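import Mathlib

/-!
# MP_07117b_nt: local facts at 3, part A
-/

set_option autoImplicit false

namespace Pool.Agent.Arb.H41

namespace Loc

/-- The 3-adic numbers. -/
abbrev Q3 : Type := ℚ_[3]

/-- The algebraic closure of the 3-adic numbers with its norm. -/
abbrev A3 : Type := PadicAlgCl 3

theorem norm_coe (x : Q3) : ‖algebraMap Q3 A3 x‖ = ‖x‖ := PadicAlgCl.norm_extends 3 x

theorem norm_three : ‖(3 : A3)‖ = 1 / 3 := by
  have h := norm_coe (3 : Q3)
  rw [map_ofNat] at h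
  rw [h]
  have := Padic.norm_p (p := 3)
  push_cast at this
  rw [this]; norm_num

theorem norm_int_le (n : ℤ) : ‖(n : A3)‖ ≤ 1 := by
  have h := norm_coe (n : Q3)
  rw [map_intCast] at h
  rw [h]
  exact Padic.norm_int_le_one n

theorem norm_int_eq {n : ℤ} (hn : ¬ (3 : ℤ) ∣ n) : ‖(n : A3)‖ = 1 := by
  have h := norm_coe (n : Q3)
  rw [map_intCast] at h
  rw [h]
  have h1 := Padic.norm_intCast_lt_one_iff (p := 3) (k := n)
  have h2 := Padic.norm_int_le_one (p := 3) n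
  rcases lt_or_eq_of_le h2 with h3 | h3
  · exact absurd (h1.1 h3) (by exact_mod_cast hn)
  · exact h3

theorem norm_aut (b : A3 ≃ₐ[Q3] A3) (x : A3) : ‖b x‖ = ‖x‖ := by
  have h := spectralNorm_eq_of_equiv (K := Q3) (L := A3) b x
  rw [PadicAlgCl.spectralNorm_eq, PadicAlgCl.spectralNorm_eq] at h
  exact h.symm

/-! ### Ultrametric inequalities -/

theorem norm_add_le' {x y : A3} {r : ℝ} (hx : ‖x‖ ≤ r) (hy : ‖y‖ ≤ r) : ‖x + y‖ ≤ r :=
  (IsUltrametricDist.norm_add_le_max x y).trans (max_le hx hy)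

theorem norm_add_lt' {x y : A3} {r : ℝ} (hx : ‖x‖ < r) (hy : ‖y‖ < r) : ‖x + y‖ < r :=
  (IsUltrametricDist.norm_add_le_max x y).trans_lt (max_lt hx hy)

theorem norm_sub_le' {x y : A3} {r : ℝ} (hx : ‖x‖ ≤ r) (hy : ‖y‖ ≤ r) : ‖x - y‖ ≤ r := by
  rw [sub_eq_add_neg]
  exact norm_add_le' hx (by rwa [norm_neg])

theorem norm_sub_lt' {x y : A3} {r : ℝ} (hx : ‖x‖ < r) (hy : ‖y‖ < r) : ‖x - y‖ < r := by
  rw [sub_eq_add_neg]
  exact norm_add_lt' hx (by rwa [norm_neg])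

/-- The norm of a sum with a dominating term. -/
theorem norm_add_eq {x y : A3} (h : ‖y‖ < ‖x‖) : ‖x + y‖ = ‖x‖ := by
  apply le_antisymm
  · exact norm_add_le' le_rfl h.le
  · by_contra hcon
    rw [not_le] at hcon
    have h1 : ‖(x + y) - y‖ < ‖x‖ := norm_sub_lt' hcon h
    rw [add_sub_cancel_right] at h1
    exact lt_irrefl _ h1

/-- Points closer to each other than to `0` have the same norm. -/
theorem norm_eq_of_sub_lt {x y : A3} (h : ‖x - y‖ < ‖x‖) : ‖y‖ = ‖x‖ := by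
  have h1 : ‖x + -(x - y)‖ = ‖x‖ := norm_add_eq (by rwa [norm_neg])
  rwa [show x + -(x - y) = y by ring] at h1

theorem norm_eq_of_sub_lt' {x y : A3} (h : ‖x - y‖ < ‖y‖) : ‖x‖ = ‖y‖ :=
  norm_eq_of_sub_lt (by rwa [norm_sub_rev])

/-! ### Congruence modulo the maximal ideal -/

/-- Congruence modulo the maximal ideal. -/
def Cong (x y : A3) : Prop := ‖x - y‖ < 1

theorem Cong.refl (x : A3) : Cong x x := by simp [Cong]

theorem Cong.symm {x y : A3} (h : Cong x y) : Cong y x := by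
  unfold Cong at *; rwa [norm_sub_rev]

theorem Cong.trans {x y z : A3} (h : Cong x y) (h' : Cong y z) : Cong x z := by
  unfold Cong at *
  have := norm_add_lt' h h'
  rwa [sub_add_sub_cancel] at this

theorem Cong.add {x y x' y' : A3} (h : Cong x y) (h' : Cong x' y') : Cong (x + x') (y + y') := by
  unfold Cong at *
  have := norm_add_lt' h h'
  rwa [show x - y + (x' - y') = x + x' - (y + y') by ring] at this

theorem Cong.sub {x y x' y' : A3} (h : Cong x y) (h' : Cong x' y') : Cong (x - x') (y - y') := by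
  unfold Cong at *
  have := norm_sub_lt' h h'
  rwa [show x - y - (x' - y') = x - x' - (y - y') by ring] at this

theorem Cong.neg {x y : A3} (h : Cong x y) : Cong (-x) (-y) := by
  have := (Cong.refl 0).sub h
  simpa using this

theorem Cong.norm_le {x y : A3} (h : Cong x y) (hx : ‖x‖ ≤ 1) : ‖y‖ ≤ 1 := by
  have := norm_sub_le' hx (le_of_lt h)
  rwa [sub_sub_cancel] at this

theorem Cong.mul {x y x' y' : A3} (h : Cong x y) (h' : Cong x' y') (hx : ‖x‖ ≤ 1)
    (hx' : ‖x'‖ ≤ 1) : Cong (x * x') (y * y') := by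
  have hy' := h'.norm_le hx'
  unfold Cong at *
  have h1 : ‖x * (x' - y')‖ < 1 := by
    rw [norm_mul]
    calc ‖x‖ * ‖x' - y'‖ ≤ 1 * ‖x' - y'‖ := by gcongr
      _ < 1 := by rwa [one_mul]
  have h2 : ‖(x - y) * y'‖ < 1 := by
    rw [norm_mul]
    calc ‖x - y‖ * ‖y'‖ ≤ ‖x - y‖ * 1 := by gcongr
      _ < 1 := by rwa [mul_one]
  have := norm_add_lt' h1 h2
  rwa [show x * (x' - y') + (x - y) * y' = x * x' - y * y' by ring] at this

theorem norm_pow_le_one {x : A3} (hx : ‖x‖ ≤ 1) (n : ℕ) : ‖x ^ n‖ ≤ 1 := by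
  rw [norm_pow]; exact pow_le_one₀ (norm_nonneg _) hx

theorem Cong.pow {x y : A3} (h : Cong x y) (hx : ‖x‖ ≤ 1) (n : ℕ) : Cong (x ^ n) (y ^ n) := by
  induction n with
  | zero => simp [Cong.refl]
  | succ n ih =>
    rw [pow_succ, pow_succ]
    exact ih.mul h (norm_pow_le_one hx n) hx

theorem cong_three_mul {x : A3} (hx : ‖x‖ ≤ 1) : Cong (3 * x) 0 := by
  unfold Cong
  rw [sub_zero, norm_mul, norm_three]
  linarith

/-- The cube is additive modulo the maximal ideal. -/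
theorem cong_add_cube {x y : A3} (hx : ‖x‖ ≤ 1) (hy : ‖y‖ ≤ 1) :
    Cong ((x + y) ^ 3) (x ^ 3 + y ^ 3) := by
  have h1 : ‖x ^ 2 * y + x * y ^ 2‖ ≤ 1 := by
    apply norm_add_le'
    · rw [norm_mul]; exact mul_le_one₀ (norm_pow_le_one hx 2) (norm_nonneg _) hy
    · rw [norm_mul]; exact mul_le_one₀ hx (norm_nonneg _) (norm_pow_le_one hy 2)
  have h2 := (Cong.refl (x ^ 3 + y ^ 3)).add (cong_three_mul h1)
  rwa [show x ^ 3 + y ^ 3 + 3 * (x ^ 2 * y + x * y ^ 2) = (x + y) ^ 3 by ring, add_zero] at h2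

end Loc

end Pool.Agent.Arb.H41
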