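import Pool.Agent.Lib.MP_07117b_nt_h41.LocA
import Pool.Agent.Lib.MP_07117b_nt_h64.LocDefs
import Pool.Agent.Lib.MP_07117b_nt_h93.PA1

/-!
# MP_07117b_nt: local data at 3 exist
-/

set_option autoImplicit false

namespace Pool.Agent.Arb

namespace H41

open Loc Polynomial

/-- A monic polynomial which is small at a point has a root close to the point. -/
theorem exists_root_close {P : A3[X]} (hP : P.Monic) {x : A3} (hx : ‖P.eval x‖ < 1) :
    ∃ r, P.eval r = 0 ∧ ‖x - r‖ < 1 := by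
  by_contra hcon
  push Not at hcon
  have h1 : P.eval x = (P.roots.map fun a => x - a).prod :=
    (IsAlgClosed.splits P).eval_eq_prod_roots_of_monic hP x
  have h2 : ∀ s : Multiset A3, (∀ r ∈ s, 1 ≤ ‖x - r‖) → 1 ≤ ‖(s.map fun a => x - a).prod‖ := by
    intro s
    induction s using Multiset.induction_on with
    | empty => intro _; simp
    | cons a s ih =>
      intro h
      rw [Multiset.map_cons, Multiset.prod_cons, norm_mul]
      exact one_le_mul_of_one_le_of_one_le (h a (Multiset.mem_cons_self a s))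
        (ih fun r hr => h r (Multiset.mem_cons_of_mem hr))
  have h3 := h2 P.roots fun r hr => hcon r ((mem_roots'.1 hr).2)
  rw [← h1] at h3
  exact absurd hx (not_lt.2 h3)

theorem norm_theta {θ : A3} (hθ : θ ^ 3 = θ + 1) : ‖θ‖ ≤ 1 := by
  by_contra hcon
  rw [not_le] at hcon
  have h1 : ‖θ + 1‖ = ‖θ‖ := norm_add_eq (by rwa [norm_one])
  rw [← hθ, norm_pow] at h1
  have h2 : ‖θ‖ * 1 < ‖θ‖ * ‖θ‖ ^ 2 := by
    apply mul_lt_mul_of_pos_left
    · nlinarith
    · linarith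
  nlinarith

theorem theta_ne {θ : A3} (hθ : θ ^ 3 = θ + 1) : ¬ Cong θ 1 := by
  intro h
  have h1 : Cong (θ ^ 3) (1 ^ 3) := h.pow (norm_theta hθ) 3
  rw [hθ, one_pow] at h1
  have h2 : Cong (θ + 1) (1 + 1) := h.add (Cong.refl 1)
  have h3 := h1.symm.trans h2
  unfold Cong at h3
  rw [show (1 : A3) - (1 + 1) = -1 by ring, norm_neg, norm_one] at h3
  exact lt_irrefl _ h3

theorem theta13 {θ : A3} (hθ : θ ^ 3 = θ + 1) : Cong (θ ^ 13) 1 := by
  have h1 : θ ^ 13 = 1 + 3 * (3 * θ ^ 2 + 4 * θ + 2) := by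
    linear_combination (θ ^ 10 + θ ^ 8 + θ ^ 7 + θ ^ 6 + 2 * θ ^ 5 + 2 * θ ^ 4 + 3 * θ ^ 3 +
      4 * θ ^ 2 + 5 * θ + 7) * hθ
  have hθ1 := norm_theta hθ
  have h2 : ‖3 * θ ^ 2 + 4 * θ + 2‖ ≤ 1 := by
    apply norm_add_le'
    · apply norm_add_le'
      · rw [norm_mul]
        refine mul_le_one₀ ?_ (norm_nonneg _) (norm_pow_le_one hθ1 2)
        exact_mod_cast norm_int_le 3
      · rw [norm_mul]
        refine mul_le_one₀ ?_ (norm_nonneg _) hθ1
        exact_mod_cast norm_int_le 4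
    · exact_mod_cast norm_int_le 2
  have h3 := (Cong.refl 1).add (cong_three_mul h2)
  rwa [← h1, add_zero] at h3

/-- A 13th root of one congruent to one is one. -/
theorem root13_eq_one {η : A3} (h : η ^ 13 = 1) (h1 : Cong η 1) : η = 1 := by
  by_contra hne
  have hη : ‖η‖ ≤ 1 := h1.symm.norm_le (by rw [norm_one])
  have h2 : (η - 1) * (∑ i ∈ Finset.range 13, η ^ i) = 0 := by
    rw [mul_comm, geom_sum_mul, h, sub_self]
  have h3 : ∑ i ∈ Finset.range 13, η ^ i = 0 :=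
    (mul_eq_zero.1 h2).resolve_left (sub_ne_zero.2 hne)
  have h4 : Cong (∑ i ∈ Finset.range 13, η ^ i) 13 := by
    have : ∀ n : ℕ, Cong (∑ i ∈ Finset.range n, η ^ i) n := by
      intro n
      induction n with
      | zero => simp [Cong.refl]
      | succ n ih =>
        rw [Finset.sum_range_succ]
        push_cast
        refine ih.add ?_
        have := h1.pow hη n
        rwa [one_pow] at this
    exact_mod_cast this 13
  rw [h3] at h4
  unfold Cong at h4
  rw [zero_sub, norm_neg] at h4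
  have h5 : ‖((13 : ℤ) : A3)‖ = 1 := norm_int_eq (by norm_num)
  push_cast at h5
  rw [h5] at h4
  exact lt_irrefl _ h4

/-- The automorphisms fixing `θ` and `ω`. -/
def BB (θ ω : A3) : Subgroup (A3 ≃+* A3) where
  carrier := {b | (∀ x : Q3, b (algebraMap Q3 A3 x) = algebraMap Q3 A3 x) ∧ b θ = θ ∧ b ω = ω}
  mul_mem' := by
    rintro a b ⟨ha, ha1, ha2⟩ ⟨hb, hb1, hb2⟩
    refine ⟨fun x => ?_, ?_, ?_⟩
    · rw [RingAut.mul_apply, hb, ha]
    · rw [RingAut.mul_apply, hb1, ha1]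
    · rw [RingAut.mul_apply, hb2, ha2]
  one_mem' := ⟨fun x => rfl, rfl, rfl⟩
  inv_mem' := by
    rintro b ⟨hb, hb1, hb2⟩
    have key : ∀ y, b y = y → b⁻¹ y = y := by
      intro y hy
      calc b⁻¹ y = b⁻¹ (b y) := by rw [hy]
        _ = y := b.symm_apply_apply y
    exact ⟨fun x => key _ (hb x), key _ hb1, key _ hb2⟩

theorem norm_BB {θ ω : A3} {b : A3 ≃+* A3} (hb : b ∈ BB θ ω) (x : A3) : ‖b x‖ = ‖x‖ :=
  norm_aut (AlgEquiv.ofRingEquiv (f := b) hb.1) x

theorem mem_adjoin_of_fixed {θ ω y : A3} (hy : ∀ b ∈ BB θ ω, b y = y) :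
    y ∈ IntermediateField.adjoin Q3 {θ, ω} := by
  rw [← InfiniteGalois.fixedField_fixingSubgroup (IntermediateField.adjoin Q3 {θ, ω}),
    IntermediateField.mem_fixedField_iff]
  intro σ hσ
  have h1 : ∀ z ∈ IntermediateField.adjoin Q3 {θ, ω}, σ z = z :=
    (IntermediateField.mem_fixingSubgroup_iff _ σ).1 hσ
  have hb : (σ : A3 ≃+* A3) ∈ BB θ ω := by
    refine ⟨fun x => σ.commutes x, ?_, ?_⟩
    · exact h1 θ (IntermediateField.subset_adjoin _ _ (by simp))
    · exact h1 ω (IntermediateField.subset_adjoin _ _ (by simp))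
  exact hy _ hb

end H41

open H41 H41.Loc in
theorem exists_loc3 [Fact (Nat.Prime 3)] :
    ∃ (c : Cst (PadicAlgCl 3)) (B : Subgroup (PadicAlgCl 3 ≃+* PadicAlgCl 3)), Loc3 c B := by
  -- theta
  obtain ⟨θ, hθ⟩ : ∃ θ : A3, θ ^ 3 = θ + 1 := by
    have hd : (Polynomial.X ^ 3 - (Polynomial.X + 1) : Polynomial A3).degree ≠ 0 := by
      have : (Polynomial.X ^ 3 - (Polynomial.X + 1) : Polynomial A3).degree = 3 := by
        compute_degree!
      rw [this]; norm_num
    obtain ⟨θ, h⟩ := IsAlgClosed.exists_root _ hd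
    refine ⟨θ, ?_⟩
    have h1 : θ ^ 3 - (θ + 1) = 0 := by simpa [Polynomial.IsRoot] using h
    exact sub_eq_zero.1 h1
  -- omega
  obtain ⟨ω, hω⟩ : ∃ ω : A3, ω ^ 2 + ω + 1 = 0 := by
    have hd : (Polynomial.X ^ 2 + Polynomial.X + 1 : Polynomial A3).degree ≠ 0 := by
      have : (Polynomial.X ^ 2 + Polynomial.X + 1 : Polynomial A3).degree = 2 := by
        compute_degree!
      rw [this]; norm_num
    obtain ⟨ω, h⟩ := IsAlgClosed.exists_root _ hd
    exact ⟨ω, by simpa [Polynomial.IsRoot] using h⟩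
  -- a
  obtain ⟨a, ha, ha1⟩ : ∃ a : A3, a ^ 2 = -2 ∧ ‖a - 1‖ < 1 := by
    obtain ⟨a, ha⟩ := IsAlgClosed.exists_pow_nat_eq (-2 : A3) (n := 2) (by norm_num)
    have h1 : ‖a - 1‖ * ‖a + 1‖ < 1 := by
      rw [← norm_mul, show (a - 1) * (a + 1) = -3 by linear_combination ha, norm_neg, norm_three]
      norm_num
    rcases lt_or_ge ‖a - 1‖ 1 with h2 | h2
    · exact ⟨a, ha, h2⟩
    · refine ⟨-a, by rw [neg_sq, ha], ?_⟩
      rw [show -a - 1 = -(a + 1) by ring, norm_neg]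
      nlinarith [norm_nonneg (a + 1)]
  -- zeta
  obtain ⟨ζ, hζ, hζθ⟩ : ∃ ζ : A3, ζ ^ 13 = 1 ∧ ‖θ - ζ‖ < 1 := by
    obtain ⟨r, hr, hr1⟩ := exists_root_close (P := Polynomial.X ^ 13 - Polynomial.C (1 : A3))
      (Polynomial.monic_X_pow_sub_C 1 (by norm_num)) (x := θ)
      (by
        rw [Polynomial.eval_sub, Polynomial.eval_pow, Polynomial.eval_X, Polynomial.eval_C]
        exact theta13 hθ)
    refine ⟨r, ?_, hr1⟩
    rw [Polynomial.eval_sub, Polynomial.eval_pow, Polynomial.eval_X, Polynomial.eval_C] at hr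
    exact sub_eq_zero.1 hr
  have hζ1 : ζ ≠ 1 := by
    rintro rfl
    exact theta_ne hθ hζθ
  have hnζ : ‖ζ‖ = 1 := by
    have : ‖ζ‖ ^ 13 = 1 := by rw [← norm_pow, hζ, norm_one]
    exact (pow_eq_one_iff_of_nonneg (norm_nonneg _) (by norm_num)).1 this
  have h2 : ‖(2 : A3)‖ = 1 := by
    have : ‖((2 : ℤ) : A3)‖ = 1 := norm_int_eq (by norm_num)
    exact_mod_cast this
  refine ⟨⟨a, ω, ζ, ha, hω, hζ, hζ1⟩, BB θ ω, ?_⟩
  refine ⟨fun x y => IsUltrametricDist.norm_add_le_max x y, fun b hb x => norm_BB hb x, ?_,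
    fun b hb => hb.2.2, ?_, norm_three, ha1, ?_, ?_⟩
  · -- a is fixed
    intro b hb
    show b a = a
    have h1 : (b a - a) * (b a + a) = 0 := by
      have : b a ^ 2 = -2 := by rw [← map_pow, ha, map_neg, map_ofNat]
      linear_combination this - ha
    rcases mul_eq_zero.1 h1 with h | h
    · exact sub_eq_zero.1 h
    · exfalso
      have h3 : b a = -a := eq_neg_of_add_eq_zero_left h
      have h4 : ‖b a - 1‖ < 1 := by
        have := norm_BB hb (a - 1)
        rw [map_sub, map_one] at this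
        rwa [this]
      rw [h3] at h4
      have h5 := norm_add_lt' h4 ha1
      rw [show -a - 1 + (a - 1) = -2 by ring, norm_neg, h2] at h5
      exact lt_irrefl _ h5
  · -- zeta is fixed
    intro b hb
    show b ζ = ζ
    have hζ0 : ζ ≠ 0 := by
      rintro rfl
      rw [norm_zero] at hnζ
      exact zero_ne_one hnζ
    have h1 : (b ζ / ζ) ^ 13 = 1 := by
      rw [div_pow, ← map_pow, hζ, map_one, div_one]
    have h3 : ‖b ζ - ζ‖ < 1 := by
      have h4 : ‖θ - b ζ‖ < 1 := by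
        have := norm_BB hb (θ - ζ)
        rw [map_sub, hb.2.1] at this
        rwa [this]
      have := norm_sub_lt' hζθ h4
      rwa [show θ - ζ - (θ - b ζ) = b ζ - ζ by ring] at this
    have h4 : Cong (b ζ / ζ) 1 := by
      unfold Cong
      rw [show b ζ / ζ - 1 = (b ζ - ζ) / ζ by field_simp, norm_div, hnζ, div_one]
      exact h3
    have h5 := root13_eq_one h1 h4
    rwa [div_eq_one_iff_eq hζ0] at h5
  · intro y hy0 hy
    exact f1_val θ ω hθ hω y (mem_adjoin_of_fixed hy) hy0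
  · intro y hy hy1
    exact f1_res θ ω hθ hω y (mem_adjoin_of_fixed hy) hy1

end Pool.Agent.Arb
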